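import Pool.Agent.Y572.YO.Main

set_option autoImplicit false

/-!
# MP_cd6b71_lc: the cardinal invariants of the single Yorioka ideals

`add(I_f) = add(N)` for all fast growing `f`; the supremum of `cof(I_f)` over any dominating
family is `cof(N)`, and `cof(I_f) = cof(N)` for all fast growing `f` if `cof(N) = d` or
`cf(cof(N)) > d`; `add(I_f) ≤ b` and `d ≤ cof(I_f)` for every `f`.
-/

namespace Pool.Agent.Results.MP_cd6b71_lc.FastGrowingFunctions

open Pool.Agent.H20R3.Yor Pool.Agent.Y572.YO Cardinal Filter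

theorem result :
    (supcof = cofNum nullIdeal ∧ minadd = addNum nullIdeal) ∧
    (∃ f₀ : ℕ → ℕ, ∀ f : ℕ → ℕ, StrictMono f → (∀ᶠ n in atTop, f₀ n ≤ f n) →
      addNum (yorioka f) = addNum nullIdeal) ∧
    (∀ D : Set (ℕ → ℕ), Dominating D → (∀ f ∈ D, StrictMono f) →
      ⨆ f : D, cofNum (yorioka f) = cofNum nullIdeal) ∧
    ((cofNum nullIdeal = dNum ∨ dNum < (cofNum nullIdeal).ord.cof) →
      ∃ f₀ : ℕ → ℕ, ∀ f : ℕ → ℕ, StrictMono f → (∀ᶠ n in atTop, f₀ n ≤ f n) →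
        cofNum (yorioka f) = cofNum nullIdeal) ∧
    (∀ f : ℕ → ℕ, StrictMono f →
      addNum nullIdeal ≤ addNum (yorioka f) ∧ addNum (yorioka f) ≤ bNum ∧
        dNum ≤ cofNum (yorioka f) ∧ cofNum (yorioka f) ≤ cofNum nullIdeal) :=
  ⟨main, add_fast, fun _ hD hDs => cof_dominating hD hDs, cof_fast,
    fun _ hf => ⟨add_null_le hf, add_le_b hf, d_le_cof hf, cof_le_null hf⟩⟩

end Pool.Agent.Results.MP_cd6b71_lc.FastGrowingFunctions
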